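import Pool.Agent.H.MP_f98bae_gt.Main

namespace Pool.Agent.Results.MP_f98bae_gt.No

open Pool.Agent.H.MP_f98bae_gt

theorem result : ∃ E : (Fin 4 → ℝ) → (Fin 4 → ℝ), IsExp E ∧ (Conj E).Nonempty ∧
    ¬ Conj E ⊆ closure (Reg E) :=
  ⟨E, isExp, ⟨![0, 0, 1, 1], conj_of rfl rfl one_ne_zero one_ne_zero⟩, main⟩

end Pool.Agent.Results.MP_f98bae_gt.No
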